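import Mathlib
import Pool.Agent.Q64.RL.Stm

/-!
Job RKF of project RL: the rank function of a linear space.
-/

set_option autoImplicit false
set_option linter.unusedSectionVars false

open Finset Pool.Agent.Q64.RL

namespace Pool.Agent.Q81.RL

variable {k : Type} [Field k] {ι : Type} [Fintype ι] [DecidableEq ι]

/-- The vectors of `L` which vanish on `S`. -/
def van (L : Submodule k (ι → k)) (S : Finset ι) : Submodule k (ι → k) :=
  L ⊓ LinearMap.ker (LinearMap.funLeft k k (Subtype.val : {i // i ∈ S} → ι))

theorem mem_van (L : Submodule k (ι → k)) (S : Finset ι) (v : ι → k) :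
    v ∈ van L S ↔ v ∈ L ∧ ∀ i ∈ S, v i = 0 := by
  unfold van
  rw [Submodule.mem_inf, LinearMap.mem_ker]
  refine and_congr_right fun _ => ?_
  constructor
  · intro h i hi
    have := congrFun h ⟨i, hi⟩
    simpa [LinearMap.funLeft_apply] using this
  · intro h
    funext ⟨i, hi⟩
    simpa [LinearMap.funLeft_apply] using h i hi

theorem rk_add (L : Submodule k (ι → k)) (S : Finset ι) :
    rk L S + Module.finrank k (van L S) = Module.finrank k L := by
  set f : (ι → k) →ₗ[k] ({i // i ∈ S} → k) :=
    LinearMap.funLeft k k (Subtype.val : {i // i ∈ S} → ι) with hf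
  have h := LinearMap.finrank_range_add_finrank_ker (f.domRestrict L)
  rw [LinearMap.range_domRestrict, LinearMap.ker_domRestrict] at h
  have h2 : Module.finrank k (Submodule.comap L.subtype (LinearMap.ker f)) =
      Module.finrank k (van L S) := by
    rw [← Submodule.finrank_map_subtype_eq, Submodule.map_comap_subtype]
    rfl
  rw [h2] at h
  exact h

theorem van_empty (L : Submodule k (ι → k)) : van L ∅ = L := by
  ext v
  simp [mem_van]

theorem van_univ (L : Submodule k (ι → k)) : van L univ = ⊥ := by
  ext v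
  rw [mem_van, Submodule.mem_bot]
  constructor
  · rintro ⟨_, h⟩
    funext i
    exact h i (mem_univ i)
  · rintro rfl
    exact ⟨L.zero_mem, fun i _ => rfl⟩

theorem van_anti (L : Submodule k (ι → k)) {S T : Finset ι} (h : S ⊆ T) : van L T ≤ van L S := by
  intro v hv
  rw [mem_van] at hv ⊢
  exact ⟨hv.1, fun i hi => hv.2 i (h hi)⟩

theorem rk_empty (L : Submodule k (ι → k)) : rk L ∅ = 0 := by
  have := rk_add L ∅
  rw [van_empty] at this
  omega

theorem rk_univ (L : Submodule k (ι → k)) : rk L univ = Module.finrank k L := by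
  have := rk_add L univ
  rw [van_univ, finrank_bot] at this
  omega

theorem rk_mono (L : Submodule k (ι → k)) {S T : Finset ι} (h : S ⊆ T) : rk L S ≤ rk L T := by
  have h1 := rk_add L S
  have h2 := rk_add L T
  have h3 := Submodule.finrank_mono (van_anti L h)
  omega

theorem rk_submod (L : Submodule k (ι → k)) (S T : Finset ι) :
    rk L (S ∩ T) + rk L (S ∪ T) ≤ rk L S + rk L T := by
  have h1 := rk_add L S
  have h2 := rk_add L T
  have h3 := rk_add L (S ∩ T)
  have h4 := rk_add L (S ∪ T)
  have h5 := Submodule.finrank_sup_add_finrank_inf_eq (van L S) (van L T)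
  have h6 : van L S ⊔ van L T ≤ van L (S ∩ T) :=
    sup_le (van_anti L inter_subset_left) (van_anti L inter_subset_right)
  have h7 : van L S ⊓ van L T = van L (S ∪ T) := by
    ext v
    rw [Submodule.mem_inf, mem_van, mem_van, mem_van]
    constructor
    · rintro ⟨⟨a, b⟩, ⟨_, c⟩⟩
      refine ⟨a, fun i hi => ?_⟩
      rcases mem_union.1 hi with h | h
      · exact b i h
      · exact c i h
    · rintro ⟨a, b⟩
      exact ⟨⟨a, fun i hi => b i (mem_union_left _ hi)⟩,
        ⟨a, fun i hi => b i (mem_union_right _ hi)⟩⟩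
  have h8 := Submodule.finrank_mono h6
  rw [h7] at h5
  omega

theorem rk_single_le (L : Submodule k (ι → k)) (e : ι) : rk L {e} ≤ 1 := by
  unfold rk
  refine le_trans (Submodule.finrank_le _) ?_
  rw [Module.finrank_fintype_fun_eq_card]
  simp

theorem rk_single_zero (L : Submodule k (ι → k)) (e : ι) :
    rk L {e} = 0 ↔ ∀ v ∈ L, v e = 0 := by
  have h1 := rk_add L {e}
  have hle : van L {e} ≤ L := inf_le_left
  constructor
  · intro h v hv
    have h2 : van L {e} = L := Submodule.eq_of_le_of_finrank_eq hle (by omega)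
    rw [← h2, mem_van] at hv
    exact hv.2 e (mem_singleton_self e)
  · intro h
    have h2 : van L {e} = L := by
      refine le_antisymm hle ?_
      intro v hv
      rw [mem_van]
      refine ⟨hv, fun i hi => ?_⟩
      rw [mem_singleton.1 hi]
      exact h v hv
    rw [h2] at h1
    omega

theorem van_compl_le (L : Submodule k (ι → k)) (e : ι) :
    van L {e}ᶜ ≤ Submodule.span k {(Pi.single e 1 : ι → k)} := by
  intro v hv
  rw [mem_van] at hv
  rw [Submodule.mem_span_singleton]
  refine ⟨v e, ?_⟩
  funext i
  by_cases hi : i = e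
  · subst hi
    simp
  · have := hv.2 i (by simp [hi])
    simp [this, hi]

theorem rk_compl_single (L : Submodule k (ι → k)) (e : ι) :
    rk L univ ≤ rk L {e}ᶜ + 1 ∧ (rk L {e}ᶜ < rk L univ ↔ (Pi.single e 1 : ι → k) ∈ L) := by
  have h1 := rk_add L {e}ᶜ
  have h2 := rk_univ L
  have h3 := Submodule.finrank_mono (van_compl_le L e)
  have h4 : Module.finrank k (Submodule.span k {(Pi.single e 1 : ι → k)}) ≤ 1 := by
    refine (finrank_span_singleton ?_).le
    intro h
    have := congrFun h e
    simp at this
  refine ⟨by omega, ?_⟩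
  constructor
  · intro h
    have h5 : van L {e}ᶜ ≠ ⊥ := by
      intro h6
      rw [h6, finrank_bot] at h1
      omega
    obtain ⟨v, hv, hv0⟩ := Submodule.exists_mem_ne_zero_of_ne_bot h5
    have hv1 := van_compl_le L e hv
    obtain ⟨c, hc⟩ := Submodule.mem_span_singleton.1 hv1
    have hc0 : c ≠ 0 := by
      rintro rfl
      apply hv0
      rw [← hc, zero_smul]
    have hvL : v ∈ L := (mem_van L _ v).1 hv |>.1
    have : (Pi.single e 1 : ι → k) = c⁻¹ • v := by
      rw [← hc, smul_smul, inv_mul_cancel₀ hc0, one_smul]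
    rw [this]
    exact L.smul_mem _ hvL
  · intro h
    by_contra h5
    have h6 : Module.finrank k (van L {e}ᶜ) = 0 := by omega
    rw [Submodule.finrank_eq_zero] at h6
    have h7 : (Pi.single e 1 : ι → k) ∈ van L {e}ᶜ := by
      rw [mem_van]
      refine ⟨h, fun i hi => ?_⟩
      have : i ≠ e := by simpa using hi
      simp [this]
    rw [h6, Submodule.mem_bot] at h7
    have := congrFun h7 e
    simp at this

theorem rk_del (L : Submodule k (ι → k)) (e : ι) (S : Finset {i // i ≠ e}) :
    rk (del L e) S = rk L (S.map (Function.Embedding.subtype _)) := by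
  classical
  let g : {x : {i // i ≠ e} // x ∈ S} → {i // i ∈ S.map (Function.Embedding.subtype _)} :=
    fun x => ⟨x.1.1, mem_map.2 ⟨x.1, x.2, rfl⟩⟩
  have hg : Function.Bijective g := by
    constructor
    · intro a b h
      have : (g a).1 = (g b).1 := congrArg Subtype.val h
      exact Subtype.ext (Subtype.ext this)
    · rintro ⟨i, hi⟩
      obtain ⟨x, hx, hxi⟩ := mem_map.1 hi
      exact ⟨⟨x, hx⟩, Subtype.ext hxi⟩
  have h1 := LinearEquiv.finrank_map_eq (LinearEquiv.funCongrLeft k k (Equiv.ofBijective g hg))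
    (L.map (LinearMap.funLeft k k
      (Subtype.val : {i // i ∈ S.map (Function.Embedding.subtype _)} → ι)))
  unfold rk
  rw [← h1]
  unfold del
  rw [← Submodule.map_comp, ← Submodule.map_comp]
  congr 1

theorem con_eq (L : Submodule k (ι → k)) (e : ι) : con L e = del (van L {e}) e := by
  unfold con del
  congr 1
  ext v
  rw [mem_van, Submodule.mem_inf, LinearMap.mem_ker, LinearMap.proj_apply]
  simp

theorem rk_con (L : Submodule k (ι → k)) (e : ι) (he : ∃ v ∈ L, v e ≠ 0)
    (S : Finset {i // i ≠ e}) :
    rk (con L e) S + 1 = rk L (insert e (S.map (Function.Embedding.subtype _))) := by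
  rw [con_eq, rk_del]
  have h1 := rk_add (van L {e}) (S.map (Function.Embedding.subtype _))
  have h2 := rk_add L {e}
  have h3 := rk_add L (insert e (S.map (Function.Embedding.subtype _)))
  have h4 : van (van L {e}) (S.map (Function.Embedding.subtype _)) =
      van L (insert e (S.map (Function.Embedding.subtype _))) := by
    ext v
    rw [mem_van, mem_van, mem_van, forall_mem_insert]
    constructor
    · rintro ⟨⟨a, b⟩, c⟩
      exact ⟨a, b e (mem_singleton_self e), c⟩
    · rintro ⟨a, b, c⟩
      refine ⟨⟨a, fun i hi => ?_⟩, c⟩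
      rw [mem_singleton.1 hi]
      exact b
  have h5 := rk_single_le L e
  have h6 : rk L {e} ≠ 0 := by
    intro h
    obtain ⟨v, hv, hve⟩ := he
    exact hve ((rk_single_zero L e).1 h v hv)
  rw [h4] at h1
  omega

theorem rkf : S_rkf := by
  intro k ι _ _ _ L
  exact ⟨rk_empty L, rk_univ L, fun S T h => rk_mono L h, rk_submod L,
    fun e => ⟨rk_single_le L e, rk_single_zero L e⟩, rk_compl_single L, rk_del L, rk_con L⟩

end Pool.Agent.Q81.RL
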