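import Mathlib
import Pool.Agent.Q64.RL.Stm
import Pool.Agent.Q81.RL.Rkf

/-!
Job TUT of project RL: a connected matroid has no loops and coloops, and a connected minor.
-/

set_option autoImplicit false
set_option linter.unusedSectionVars false

open Finset Pool.Agent.Q64.RL

namespace Pool.Agent.Q81.RL

variable {k : Type} [Field k] {ι : Type} [Fintype ι] [DecidableEq ι]

theorem rk_compl_ge (L : Submodule k (ι → k)) (S : Finset ι) :
    rk L univ ≤ rk L S + rk L Sᶜ := by
  have h := rk_submod L S Sᶜ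
  rw [inter_compl, union_compl, rk_empty] at h
  omega

theorem rk_bot (S : Finset ι) : rk (⊥ : Submodule k (ι → k)) S = 0 := by
  have h1 := rk_mono (⊥ : Submodule k (ι → k)) (subset_univ S)
  rw [rk_univ, finrank_bot] at h1
  omega

theorem rk_pos (L : Submodule k (ι → k)) (h : L ≠ ⊥) : 1 ≤ rk L univ := by
  rw [rk_univ]
  by_contra h1
  have h2 : Module.finrank k L = 0 := by omega
  rw [Submodule.finrank_eq_zero] at h2
  exact h h2

theorem map_univ_sub (e : ι) :
    (univ : Finset {i // i ≠ e}).map (Function.Embedding.subtype _) = {e}ᶜ := by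
  ext i
  simp

theorem insert_map_univ_sub (e : ι) :
    insert e ((univ : Finset {i // i ≠ e}).map (Function.Embedding.subtype _)) = univ := by
  rw [map_univ_sub]
  ext i
  simp

theorem rk_del_univ (L : Submodule k (ι → k)) (hL : NL L) (e : ι) :
    rk (del L e) univ = rk L univ := by
  rw [rk_del, map_univ_sub]
  have h1 := rk_compl_single L e
  have h2 := rk_mono L (subset_univ ({e}ᶜ : Finset ι))
  by_contra h3
  exact hL.2 e (h1.2.1 (by omega))

theorem rk_con_univ (L : Submodule k (ι → k)) (hL : NL L) (e : ι) :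
    rk (con L e) univ + 1 = rk L univ := by
  rw [rk_con L e (hL.1 e), insert_map_univ_sub]

theorem conn_nl (L : Submodule k (ι → k)) (hc : 2 ≤ Fintype.card ι) (hL : Conn L) : NL L := by
  have hne : ∀ i : ι, ({i}ᶜ : Finset ι).Nonempty := by
    intro i
    rw [← card_pos, card_compl, card_singleton]
    omega
  refine ⟨fun i => ?_, fun i hi => ?_⟩
  · by_contra h
    push Not at h
    have h1 := (rk_single_zero L i).2 h
    have h2 := hL.2 {i} (singleton_nonempty i) (hne i)
    have h3 := rk_compl_ge L {i}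
    have h4 := rk_mono L (subset_univ ({i}ᶜ : Finset ι))
    omega
  · have h1 := (rk_compl_single L i).2.2 hi
    have h2 := hL.2 {i} (singleton_nonempty i) (hne i)
    have h3 := rk_compl_ge L {i}
    have h4 := rk_single_le L i
    omega

theorem tut_key (L : Submodule k (ι → k)) (hL : Conn L) (e : ι) (A B C D : Finset ι)
    (hA : e ∉ A) (hB : e ∉ B) (hAB : ∀ i, i ≠ e → (i ∈ A ↔ i ∉ B))
    (hC : e ∉ C) (hD : e ∉ D) (hCD : ∀ i, i ≠ e → (i ∈ C ↔ i ∉ D))
    (h1 : rk L A + rk L B ≤ rk L univ)
    (h2 : rk L (insert e C) + rk L (insert e D) ≤ rk L univ + 1) :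
    A ∩ C = ∅ ∨ B ∩ D = ∅ := by
  by_contra hcon
  push Not at hcon
  obtain ⟨hAC, hBD⟩ := hcon
  have hAC' : (A ∩ C).Nonempty := hAC
  have hBD' : (B ∩ D).Nonempty := hBD
  have e1 : A ∩ insert e C = A ∩ C := by
    ext i
    rw [mem_inter, mem_inter, mem_insert]
    constructor
    · rintro ⟨a, b | b⟩
      · exact absurd (b ▸ a) hA
      · exact ⟨a, b⟩
    · rintro ⟨a, b⟩
      exact ⟨a, Or.inr b⟩
  have e2 : B ∩ insert e D = B ∩ D := by
    ext i
    rw [mem_inter, mem_inter, mem_insert]
    constructor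
    · rintro ⟨a, b | b⟩
      · exact absurd (b ▸ a) hB
      · exact ⟨a, b⟩
    · rintro ⟨a, b⟩
      exact ⟨a, Or.inr b⟩
  have e3 : (B ∩ D)ᶜ = A ∪ insert e C := by
    ext i
    rw [mem_compl, mem_inter, mem_union, mem_insert]
    by_cases hi : i = e
    · subst hi
      simp [hB]
    · have a1 := hAB i hi
      have a2 := hCD i hi
      tauto
  have e4 : (A ∩ C)ᶜ = B ∪ insert e D := by
    ext i
    rw [mem_compl, mem_inter, mem_union, mem_insert]
    by_cases hi : i = e
    · subst hi
      simp [hA]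
    · have a1 := hAB i hi
      have a2 := hCD i hi
      tauto
  have s1 := rk_submod L A (insert e C)
  have s2 := rk_submod L B (insert e D)
  rw [e1] at s1
  rw [e2] at s2
  have c1 := hL.2 (A ∩ C) hAC' ⟨e, by simp [hA]⟩
  have c2 := hL.2 (B ∩ D) hBD' ⟨e, by simp [hB]⟩
  have g1 := rk_compl_ge L (A ∩ C)
  have g2 := rk_compl_ge L (B ∩ D)
  rw [e4] at c1 g1
  rw [e3] at c2 g2
  omega

theorem rk_sub_compl (e : ι) (A : Finset {i // i ≠ e}) :
    ∀ i, i ≠ e → (i ∈ A.map (Function.Embedding.subtype _) ↔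
      i ∉ (Aᶜ).map (Function.Embedding.subtype _)) := by
  intro i hi
  simp [hi]

theorem not_mem_sub (e : ι) (A : Finset {i // i ≠ e}) :
    e ∉ A.map (Function.Embedding.subtype _) := by
  simp

theorem tut' : S_tut := by
  intro k ι _ _ _ L hc hL
  have hN := conn_nl L hc hL
  refine ⟨hN, fun e => ?_⟩
  by_contra hcon
  push Not at hcon
  obtain ⟨hd, hk⟩ := hcon
  have hr := rk_pos L hL.1
  have hdel : del L e ≠ ⊥ := by
    intro h
    have h1 := rk_del_univ L hN e
    rw [h, rk_bot] at h1
    omega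
  have hd' : ∃ A : Finset {i // i ≠ e}, A.Nonempty ∧ Aᶜ.Nonempty ∧
      rk (del L e) A + rk (del L e) Aᶜ = rk (del L e) univ := by
    by_contra h
    push Not at h
    exact hd ⟨hdel, fun S h1 h2 => h S h1 h2⟩
  obtain ⟨A, hA, hA', hAr⟩ := hd'
  rw [rk_del_univ L hN e, rk_del, rk_del] at hAr
  have hpos : ∀ S : Finset {i // i ≠ e}, S.Nonempty →
      1 ≤ rk L (S.map (Function.Embedding.subtype _)) := by
    rintro S ⟨i, hi⟩
    have h1 : ({i.1} : Finset ι) ⊆ S.map (Function.Embedding.subtype _) := by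
      rw [singleton_subset_iff, mem_map]
      exact ⟨i, hi, rfl⟩
    have h2 := rk_mono L h1
    have h3 : rk L {i.1} ≠ 0 := by
      intro h
      obtain ⟨v, hv, hv'⟩ := hN.1 i.1
      exact hv' ((rk_single_zero L i.1).1 h v hv)
    omega
  by_cases hkb : con L e = ⊥
  · have h1 := rk_con_univ L hN e
    rw [hkb, rk_bot] at h1
    have h2 := hpos A hA
    have h3 := hpos Aᶜ hA'
    omega
  · have hk' : ∃ C : Finset {i // i ≠ e}, C.Nonempty ∧ Cᶜ.Nonempty ∧
        rk (con L e) C + rk (con L e) Cᶜ = rk (con L e) univ := by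
      by_contra h
      push Not at h
      exact hk ⟨hkb, fun S h1 h2 => h S h1 h2⟩
    obtain ⟨C, hC, hC', hCr⟩ := hk'
    have h1 := rk_con_univ L hN e
    have h2 := rk_con L e (hN.1 e) C
    have h3 := rk_con L e (hN.1 e) Cᶜ
    have k1 := tut_key L hL e (A.map (Function.Embedding.subtype _))
      (Aᶜ.map (Function.Embedding.subtype _)) (C.map (Function.Embedding.subtype _))
      (Cᶜ.map (Function.Embedding.subtype _)) (not_mem_sub e A) (not_mem_sub e _)
      (rk_sub_compl e A) (not_mem_sub e C) (not_mem_sub e _) (rk_sub_compl e C)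
      (by omega) (by omega)
    have k2 := tut_key L hL e (Aᶜ.map (Function.Embedding.subtype _))
      (A.map (Function.Embedding.subtype _)) (C.map (Function.Embedding.subtype _))
      (Cᶜ.map (Function.Embedding.subtype _)) (not_mem_sub e _) (not_mem_sub e A)
      (by
        intro i hi
        have := rk_sub_compl e A i hi
        tauto) (not_mem_sub e C) (not_mem_sub e _) (rk_sub_compl e C)
      (by omega) (by omega)
    have m : ∀ P Q : Finset {i // i ≠ e}, P.map (Function.Embedding.subtype _) ∩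
        Q.map (Function.Embedding.subtype _) = ∅ → ∀ x, x ∈ P → x ∉ Q := by
      intro P Q h x hx hx'
      have : x.1 ∈ P.map (Function.Embedding.subtype _) ∩
        Q.map (Function.Embedding.subtype _) :=
        mem_inter.2 ⟨mem_map.2 ⟨x, hx, rfl⟩, mem_map.2 ⟨x, hx', rfl⟩⟩
      rw [h] at this
      exact absurd this (notMem_empty _)
    rcases k1 with a | a <;> rcases k2 with b | b
    · obtain ⟨x, hx⟩ := hC
      by_cases hxA : x ∈ A
      · exact m _ _ a x hxA hx
      · exact m _ _ b x (mem_compl.2 hxA) hx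
    · obtain ⟨x, hx⟩ := hA
      by_cases hxC : x ∈ C
      · exact m _ _ a x hx hxC
      · exact m _ _ b x hx (mem_compl.2 hxC)
    · obtain ⟨x, hx⟩ := hA'
      by_cases hxC : x ∈ C
      · exact m _ _ b x hx hxC
      · exact m _ _ a x hx (mem_compl.2 hxC)
    · obtain ⟨x, hx⟩ := hC'
      by_cases hxA : x ∈ A
      · exact m _ _ b x hxA hx
      · exact m _ _ a x (mem_compl.2 hxA) hx

theorem tut : S_rkf → S_tut := fun _ => tut'

end Pool.Agent.Q81.RL
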