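import Mathlib
import Pool.Agent.Q64.RL.Stm
import Pool.Agent.Q81.RL.Rkf
import Pool.Agent.Q81.RL.Tut

/-!
Job BET of project RL: the recursion of the beta invariant.
-/

set_option autoImplicit false
set_option linter.unusedSectionVars false

open Finset Pool.Agent.Q64.RL

namespace Pool.Agent.Q81.RL

variable {k : Type} [Field k] {ι : Type} [Fintype ι] [DecidableEq ι]

theorem sum_split (e : ι) (F : Finset ι → ℤ) :
    ∑ S : Finset ι, F S =
      ∑ S : Finset {i // i ≠ e}, F (S.map (Function.Embedding.subtype _)) +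
      ∑ S : Finset {i // i ≠ e}, F (insert e (S.map (Function.Embedding.subtype _))) := by
  classical
  rw [← sum_filter_not_add_sum_filter (univ : Finset (Finset ι)) (fun S => e ∈ S) F]
  congr 1
  · refine (sum_nbij' (fun S : Finset {i // i ≠ e} => S.map (Function.Embedding.subtype _))
      (fun S => S.subtype (fun i => i ≠ e)) ?_ ?_ ?_ ?_ ?_).symm
    · intro S _
      rw [mem_filter]
      exact ⟨mem_univ _, not_mem_sub e S⟩
    · intro S _
      exact mem_univ _
    · intro S _
      ext i
      simp [i.2]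
    · intro S hS
      have he := (mem_filter.1 hS).2
      rw [subtype_map]
      rw [filter_eq_self]
      intro i hi h
      exact he (h ▸ hi)
    · intro S _
      rfl
  · refine (sum_nbij' (fun S : Finset {i // i ≠ e} =>
      insert e (S.map (Function.Embedding.subtype _)))
      (fun S => S.subtype (fun i => i ≠ e)) ?_ ?_ ?_ ?_ ?_).symm
    · intro S _
      rw [mem_filter]
      exact ⟨mem_univ _, mem_insert_self _ _⟩
    · intro S _
      exact mem_univ _
    · intro S _
      ext i
      simp [i.2]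
    · intro S hS
      have he := (mem_filter.1 hS).2
      rw [subtype_map]
      ext i
      rw [mem_insert, mem_filter]
      by_cases hi : i = e
      · subst hi
        simp [he]
      · simp [hi]
    · intro S _
      rfl

theorem card_insert_sub (e : ι) (S : Finset {i // i ≠ e}) :
    (insert e (S.map (Function.Embedding.subtype _))).card = S.card + 1 := by
  rw [card_insert_of_notMem (not_mem_sub e S), card_map]

theorem alt_split (e : ι) (F : Finset ι → ℤ) :
    ∑ S : Finset ι, (-1) ^ S.card * F S =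
      ∑ S : Finset {i // i ≠ e}, (-1) ^ S.card * F (S.map (Function.Embedding.subtype _)) -
      ∑ S : Finset {i // i ≠ e},
        (-1) ^ S.card * F (insert e (S.map (Function.Embedding.subtype _))) := by
  rw [sum_split e, sub_eq_add_neg, ← sum_neg_distrib]
  congr 1
  · refine sum_congr rfl fun S _ => ?_
    rw [card_map]
  · refine sum_congr rfl fun S _ => ?_
    rw [card_insert_sub, pow_succ]
    ring

theorem alt_zero (e : ι) (F : Finset ι → ℤ)
    (hF : ∀ S : Finset {i // i ≠ e}, F (insert e (S.map (Function.Embedding.subtype _))) =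
      F (S.map (Function.Embedding.subtype _))) :
    ∑ S : Finset ι, (-1) ^ S.card * F S = 0 := by
  rw [alt_split e, sub_eq_zero]
  refine sum_congr rfl fun S _ => ?_
  rw [hF]

theorem rk_product (L : Submodule k (ι → k)) (S : Finset ι)
    (h : rk L S + rk L Sᶜ = rk L univ) (T : Finset ι) :
    rk L T = rk L (T ∩ S) + rk L (T ∩ Sᶜ) := by
  have h1 := rk_submod L (T ∩ S) (T ∩ Sᶜ)
  have e1 : (T ∩ S) ∩ (T ∩ Sᶜ) = ∅ := by
    ext i
    simp only [mem_inter, mem_compl, notMem_empty]
    tauto
  have e2 : (T ∩ S) ∪ (T ∩ Sᶜ) = T := by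
    ext i
    simp only [mem_inter, mem_compl, mem_union]
    tauto
  rw [e1, e2, rk_empty] at h1
  have h2 := rk_submod L T S
  have h3 := rk_submod L (T ∪ S) Sᶜ
  have e3 : (T ∪ S) ∩ Sᶜ = T ∩ Sᶜ := by
    ext i
    simp only [mem_inter, mem_compl, mem_union]
    tauto
  have e4 : (T ∪ S) ∪ Sᶜ = univ := by
    ext i
    simp only [mem_compl, mem_union, mem_univ]
    tauto
  rw [e3, e4] at h3
  omega

theorem alt_inter (S : Finset ι) (j : ι) (hj : j ∉ S) (F : Finset ι → ℤ) :
    ∑ T : Finset ι, (-1) ^ T.card * F (T ∩ S) = 0 := by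
  refine alt_zero j (fun T => F (T ∩ S)) fun T => ?_
  congr 1
  exact insert_inter_of_notMem hj

theorem beta_zero (L : Submodule k (ι → k)) (h : ¬ Conn L) : beta L = 0 := by
  unfold beta
  by_cases hb : L = ⊥
  · subst hb
    have : ∀ S : Finset ι, (-1 : ℤ) ^ S.card * (rk (⊥ : Submodule k (ι → k)) S : ℤ) = 0 := by
      intro S
      rw [rk_bot]
      simp
    rw [sum_congr rfl fun S _ => this S]
    simp
  · have : ∃ S : Finset ι, S.Nonempty ∧ Sᶜ.Nonempty ∧ rk L S + rk L Sᶜ = rk L univ := by
      by_contra h'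
      push Not at h'
      exact h ⟨hb, fun S h1 h2 => h' S h1 h2⟩
    obtain ⟨S, ⟨i, hi⟩, ⟨j, hj⟩, hS⟩ := this
    have h1 : ∀ T : Finset ι, (-1 : ℤ) ^ T.card * (rk L T : ℤ) =
        (-1) ^ T.card * ((fun U => (rk L U : ℤ)) (T ∩ S)) +
        (-1) ^ T.card * ((fun U => (rk L U : ℤ)) (T ∩ Sᶜ)) := by
      intro T
      rw [rk_product L S hS T]
      push_cast
      ring
    have a1 := alt_inter S j (mem_compl.1 hj) (fun U => (rk L U : ℤ))
    have a2 := alt_inter Sᶜ i (by simpa using hi) (fun U => (rk L U : ℤ))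
    rw [sum_congr rfl fun T _ => h1 T, sum_add_distrib]
    rw [show (∑ x : Finset ι, (-1 : ℤ) ^ x.card * (fun U => (rk L U : ℤ)) (x ∩ S)) = 0 from a1,
      show (∑ x : Finset ι, (-1 : ℤ) ^ x.card * (fun U => (rk L U : ℤ)) (x ∩ Sᶜ)) = 0 from a2]
    simp

theorem beta_rec (L : Submodule k (ι → k)) (hc : 2 ≤ Fintype.card ι) (hN : NL L) (e : ι) :
    beta L = beta (del L e) + beta (con L e) := by
  have hne : ∃ f : {i // i ≠ e}, True := by
    have : Nontrivial ι := Fintype.one_lt_card_iff_nontrivial.1 (by omega)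
    obtain ⟨f, hf⟩ := exists_ne e
    exact ⟨⟨f, hf⟩, trivial⟩
  obtain ⟨f, -⟩ := hne
  unfold beta
  rw [alt_split e (fun S => (rk L S : ℤ)), rk_del_univ L hN e, ← rk_con_univ L hN e]
  have h1 : ∑ S : Finset {i // i ≠ e},
      (-1 : ℤ) ^ S.card * (rk L (S.map (Function.Embedding.subtype _)) : ℤ) =
      ∑ S : Finset {i // i ≠ e}, (-1 : ℤ) ^ S.card * (rk (del L e) S : ℤ) := by
    refine sum_congr rfl fun S _ => ?_
    rw [rk_del]
  have h2 : ∑ S : Finset {i // i ≠ e},
      (-1 : ℤ) ^ S.card * (rk L (insert e (S.map (Function.Embedding.subtype _))) : ℤ) =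
      ∑ S : Finset {i // i ≠ e}, (-1 : ℤ) ^ S.card * (rk (con L e) S : ℤ) := by
    have h3 : ∀ S : Finset {i // i ≠ e},
        (-1 : ℤ) ^ S.card * (rk L (insert e (S.map (Function.Embedding.subtype _))) : ℤ) =
        (-1 : ℤ) ^ S.card * (rk (con L e) S : ℤ) + (-1 : ℤ) ^ S.card * ((fun _ => (1 : ℤ)) S) := by
      intro S
      rw [← rk_con L e (hN.1 e)]
      push_cast
      ring
    rw [sum_congr rfl fun S _ => h3 S, sum_add_distrib,
      alt_zero f (fun _ => (1 : ℤ)) (fun _ => rfl), add_zero]
  rw [h1, h2, pow_succ]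
  ring

theorem beta_one (L : Submodule k (ι → k)) (hc : Fintype.card ι = 1) (hL : L ≠ ⊥) :
    beta L = 1 := by
  obtain ⟨e, he⟩ := Fintype.card_eq_one_iff.1 hc
  have hu : (univ : Finset ι) = {e} := by
    ext i
    simp [he i]
  have h1 := rk_pos L hL
  have h2 := rk_single_le L e
  have hr : rk L {e} = 1 := by
    rw [hu] at h1
    omega
  have hS : (univ : Finset (Finset ι)) = {∅, {e}} := by
    ext S
    simp only [mem_univ, mem_insert, mem_singleton, true_iff]
    rcases S.eq_empty_or_nonempty with h | h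
    · exact Or.inl h
    · right
      obtain ⟨i, hi⟩ := h
      ext j
      rw [mem_singleton]
      constructor
      · intro _
        exact he j
      · rintro rfl
        rw [← he i]
        exact hi
  unfold beta
  rw [hS, hu, sum_pair (by simp), hr, rk_empty]
  simp

theorem bet' : S_bet := by
  intro k ι _ _ _ L
  exact ⟨beta_zero L, fun h1 h2 e => beta_rec L h1 h2 e, beta_one L,
    fun h e => ⟨rk_del_univ L h e, rk_con_univ L h e⟩⟩

theorem bet : S_rkf → S_bet := fun _ => bet'

end Pool.Agent.Q81.RL
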