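import Mathlib
import Pool.Agent.Q64.RL.Stm
import Pool.Agent.Q81.RL.Rkf
import Pool.Agent.Q81.RL.Tut

/-!
Job DIS of project RL: disconnected matroids.
-/

set_option autoImplicit false
set_option linter.unusedSectionVars false

open Finset MvPolynomial Pool.Agent.Q64.RL

namespace Pool.Agent.Q81.RL

variable {k : Type} [Field k] {ι : Type} [Fintype ι] [DecidableEq ι]

/-- The restriction of a vector of `L` to one side of a separation, extended by zero, lies
in `L`. -/
theorem cut_mem (L : Submodule k (ι → k)) (S : Finset ι)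
    (h : rk L S + rk L Sᶜ = rk L univ) (u : ι → k) (hu : u ∈ L) :
    (fun i => if i ∈ S then u i else 0) ∈ L := by
  have h1 := rk_add L S
  have h2 := rk_add L Sᶜ
  have h3 := rk_univ L
  have h4 := Submodule.finrank_sup_add_finrank_inf_eq (van L S) (van L Sᶜ)
  have h5 : van L S ⊓ van L Sᶜ = ⊥ := by
    ext v
    rw [Submodule.mem_inf, mem_van, mem_van, Submodule.mem_bot]
    constructor
    · rintro ⟨⟨_, b⟩, ⟨_, c⟩⟩
      funext i
      by_cases hi : i ∈ S
      · exact b i hi
      · exact c i (mem_compl.2 hi)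
    · rintro rfl
      exact ⟨⟨L.zero_mem, fun i _ => rfl⟩, ⟨L.zero_mem, fun i _ => rfl⟩⟩
  rw [h5, finrank_bot] at h4
  have h6 : van L S ⊔ van L Sᶜ ≤ L := sup_le inf_le_left inf_le_left
  have h7 : van L S ⊔ van L Sᶜ = L := Submodule.eq_of_le_of_finrank_eq h6 (by omega)
  rw [← h7, Submodule.mem_sup] at hu
  obtain ⟨a, ha, b, hb, hab⟩ := hu
  rw [mem_van] at ha hb
  have h8 : (fun i => if i ∈ S then u i else 0) = b := by
    funext i
    rw [← hab]
    by_cases hi : i ∈ S
    · simp only [hi, if_true, Pi.add_apply]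
      rw [ha.2 i hi, zero_add]
    · simp only [hi, if_false]
      exact (hb.2 i (mem_compl.2 hi)).symm
  rw [h8]
  exact hb.1

theorem sum_sub_ext {R : Type} [CommRing R] (S : Finset ι) (f : {i // i ∈ S} → R) (g : ι → R) :
    ∑ i : ι, g i * (if h : i ∈ S then f ⟨i, h⟩ else 0) = ∑ i : {i // i ∈ S}, g i.1 * f i := by
  have h1 : ∑ i : ι, g i * (if h : i ∈ S then f ⟨i, h⟩ else 0) =
      ∑ i ∈ S, g i * (if h : i ∈ S then f ⟨i, h⟩ else 0) := by
    refine (sum_subset (subset_univ S) ?_).symm
    intro i _ hi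
    rw [dif_neg hi, mul_zero]
  rw [h1, ← sum_coe_sort S]
  refine sum_congr rfl fun i _ => ?_
  rw [dif_pos i.2]

theorem dis_aux (hpol : S_pol) {E : Type} [Field E] [Algebra k E]
    (L : Submodule k (ι → k)) (o : ι) (x w : ι → E) (S : Finset ι) (hS : S.Nonempty)
    (ho : o ∉ S) (h : rk L S + rk L Sᶜ = rk L univ) (hx : InL L x) (hw : InP L w) :
    ¬ Good k o x w := by
  intro hg
  have : Nonempty {i // i ∈ S} := by
    obtain ⟨i, hi⟩ := hS
    exact ⟨⟨i, hi⟩⟩
  obtain ⟨Q, hQ, hQ'⟩ := hpol k {i // i ∈ S}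
    (L.map (LinearMap.funLeft k k (Subtype.val : {i // i ∈ S} → ι)))
  have h1 : InL (L.map (LinearMap.funLeft k k (Subtype.val : {i // i ∈ S} → ι)))
      (fun i : {i // i ∈ S} => x i.1) := by
    intro a ha
    have h2 := hx (fun i => if h : i ∈ S then a ⟨i, h⟩ else 0) (by
      intro v hv
      rw [sum_sub_ext S a v]
      exact ha _ ⟨v, hv, rfl⟩)
    have h3 : ∀ i : ι, algebraMap k E (if h : i ∈ S then a ⟨i, h⟩ else 0) * x i =
        x i * (if h : i ∈ S then (fun j : {i // i ∈ S} => algebraMap k E (a j)) ⟨i, h⟩ else 0) := by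
      intro i
      by_cases hi : i ∈ S
      · rw [dif_pos hi, dif_pos hi, mul_comm]
      · rw [dif_neg hi, dif_neg hi, map_zero, mul_zero, zero_mul]
    have h5 := sum_sub_ext S (fun j : {i // i ∈ S} => algebraMap k E (a j)) x
    have h6 : ∑ i : {i // i ∈ S}, x i.1 * algebraMap k E (a i) = 0 :=
      h5.symm.trans ((sum_congr rfl fun i _ => (h3 i).symm).trans h2)
    rw [← h6]
    refine sum_congr rfl fun i _ => ?_
    rw [mul_comm]
  have h2 : InP (L.map (LinearMap.funLeft k k (Subtype.val : {i // i ∈ S} → ι)))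
      (fun i : {i // i ∈ S} => w i.1) := by
    rintro v ⟨u, hu, rfl⟩
    have h3 := hw _ (cut_mem L S h u hu)
    have h4 : ∀ i : ι, algebraMap k E (if i ∈ S then u i else 0) * w i =
        w i * (if h : i ∈ S then (fun j : {i // i ∈ S} => algebraMap k E (u j.1)) ⟨i, h⟩
          else 0) := by
      intro i
      by_cases hi : i ∈ S
      · rw [if_pos hi, dif_pos hi, mul_comm]
      · rw [if_neg hi, dif_neg hi, map_zero, mul_zero, zero_mul]
    have h5 := sum_sub_ext S (fun j : {i // i ∈ S} => algebraMap k E (u j.1)) w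
    have h6 : ∑ i : {i // i ∈ S}, w i.1 * algebraMap k E (u i.1) = 0 :=
      h5.symm.trans ((sum_congr rfl fun i _ => (h4 i).symm).trans h3)
    rw [← h6]
    refine sum_congr rfl fun i _ => ?_
    rw [mul_comm]
    rfl
  have h3 := hQ' E _ _ h1 h2
  let j : {i // i ∈ S} → {i // i ≠ o} := fun i => ⟨i.1, fun hio => ho (hio ▸ i.2)⟩
  have hj : Function.Injective j := by
    intro a b hab
    have : (j a).1 = (j b).1 := congrArg Subtype.val hab
    exact Subtype.ext this
  have h4 : AlgebraicIndependent k (fun i : {i // i ∈ S} => x i.1 ^ 2 * w i.1) :=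
    AlgebraicIndependent.comp hg j hj
  exact hQ ((algebraicIndependent_iff.1 h4) Q h3)

theorem dis : S_pol → S_dis := by
  intro hpol k ι _ _ _ L o hL E _ _ x w hG
  refine ⟨fun _ => ?_, fun h => absurd rfl h⟩
  by_cases hb : L = ⊥
  · exfalso
    have h1 := hG.hx (Pi.single o 1) (by
      intro v hv
      rw [hb, Submodule.mem_bot] at hv
      subst hv
      simp)
    have h2 : ∑ i, algebraMap k E ((Pi.single o 1 : ι → k) i) * x i = x o := by
      rw [sum_eq_single o]
      · simp
      · intro i _ hi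
        simp [hi]
      · intro h
        exact absurd (mem_univ o) h
    rw [h2, hG.xo] at h1
    exact one_ne_zero h1
  · have : ∃ S : Finset ι, S.Nonempty ∧ Sᶜ.Nonempty ∧ rk L S + rk L Sᶜ = rk L univ := by
      by_contra h'
      push Not at h'
      exact hL ⟨hb, fun S h1 h2 => h' S h1 h2⟩
    obtain ⟨S, h1, h2, h3⟩ := this
    by_cases ho : o ∈ S
    · refine dis_aux hpol L o x w Sᶜ h2 (by simpa using ho) ?_ hG.hx hG.hw
      rw [compl_compl, add_comm]
      exact h3
    · exact dis_aux hpol L o x w S h1 ho h3 hG.hx hG.hw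

end Pool.Agent.Q81.RL
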